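import Pool.Agent.Y223.G.Stm10
import Pool.Agent.Y223.G.WBase

/-!
# H-GLAE (job 6915, helper779 for helper223): gluing of the charts with a second grading
-/

set_option autoImplicit false

namespace Pool.Agent.Y779.H

open Pool.Agent.Y223.G

section

variable {k K : Type} [CommRing k] [Field K] [Algebra k K]
variable {G N B : Type} [Group G] [CommRing B] [Algebra B K] (ρ : G →* (K ≃ₐ[k] K))
  (𝔔 : N → Ideal B) (p l : N → ℕ) (τ : N → G)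

lemma mem_RG {C : Subalgebra B K} {f : LP K} : f ∈ RG k ρ 𝔔 p l τ C ↔ f ∈ RR k 1 1 ⊤ 0 C ∧
    ∀ i, f ∈ RR k (ρ (τ i)) (p i) (𝔔 i) (l i) C := by
  unfold RG
  rw [Algebra.mem_inf, Algebra.mem_iInf]

lemma RG_c {C : Subalgebra B K} (hp : ∀ i, 0 < p i) {ν : K} (hν : ν ∈ C) :
    hm 0 ν ∈ RG k ρ 𝔔 p l τ C := by
  rw [mem_RG]
  exact ⟨RR_c one_pos hν, fun i => RR_c (hp i) hν⟩

lemma RG_gr {C : Subalgebra B K} : Gr (RG k ρ 𝔔 p l τ C) := by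
  intro f hf d
  rw [mem_RG] at hf ⊢
  exact ⟨RR_gr f hf.1 d, fun i => RR_gr f (hf.2 i) d⟩

end

section

variable {k K K₂ : Type} [CommRing k] [Field K] [Field K₂] [Algebra k K] [Algebra k K₂]

lemma mono (ε : LP K →ₐ[k] K₂) (d b : ℤ) (x a : K) (n : ℕ) :
    hm 0 (ε (hm 0 x)) ^ n * hm d (ε (hm b a)) = hm d (ε (hm b (x ^ n * a))) := by
  rw [hm_pow, hm_mul, mul_zero, zero_add, ← map_pow, ← map_mul, hm_pow, hm_mul, mul_zero, zero_add]

/-- the passage from the first to the second grading -/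
lemma glue {ε : LP K →ₐ[k] K₂} {R R' : Subalgebra k (LP K)} {π π' x : K}
    (hm1 : ∀ (d b : ℤ) (a : K), hm d (ε (hm b a)) ∈ R2 ε R π ↔ hm d (a * π ^ (-b)) ∈ R)
    (hbg : BG ε (R2 ε R' π'))
    (hm2 : ∀ (d b : ℤ) (a : K), hm d (ε (hm b a)) ∈ R2 ε R' π' ↔ hm d (a * π' ^ (-b)) ∈ R')
    (hx : hm 0 x ∈ R)
    (h : ∀ (d b : ℤ) (a : K), hm d (a * π' ^ (-b)) ∈ R' →
      ∃ n : ℕ, hm d (x ^ n * a * π ^ (-b)) ∈ R) :
    hm 0 (ε (hm 0 x)) ∈ R2 ε R π ∧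
      ∀ f ∈ R2 ε R' π', ∃ n : ℕ, hm 0 (ε (hm 0 x)) ^ n * f ∈ R2 ε R π := by
  have h0 : hm 0 (ε (hm 0 x)) ∈ R2 ε R π := by
    rw [hm1]
    rw [neg_zero, zpow_zero, mul_one]
    exact hx
  refine ⟨h0, fun f hf => ?_⟩
  have hf' := hbg f hf
  clear hf
  set u : LP K₂ := hm 0 (ε (hm 0 x)) with hu
  set C := R2 ε R π with hC
  have key : ∀ (a b : ℕ) (g : LP K₂), a ≤ b → u ^ a * g ∈ C → u ^ b * g ∈ C := by
    intro a b g hab hg
    have e : u ^ b * g = u ^ (b - a) * (u ^ a * g) := by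
      rw [← mul_assoc, ← pow_add, Nat.sub_add_cancel hab]
    rw [e]
    exact C.mul_mem (C.pow_mem h0 _) hg
  induction hf' using Submodule.span_induction with
  | mem g hg =>
    obtain ⟨hg, d, b, a, rfl⟩ := hg
    obtain ⟨n, hn⟩ := h d b a ((hm2 d b a).1 hg)
    refine ⟨n, ?_⟩
    rw [hu, mono, hC, hm1]
    exact hn
  | zero => exact ⟨0, by rw [mul_zero]; exact C.zero_mem⟩
  | add f g _ _ ihf ihg =>
    obtain ⟨n, hn⟩ := ihf
    obtain ⟨n', hn'⟩ := ihg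
    refine ⟨max n n', ?_⟩
    rw [mul_add]
    exact C.add_mem (key _ _ _ (le_max_left _ _) hn) (key _ _ _ (le_max_right _ _) hn')
  | smul r g _ ih =>
    obtain ⟨n, hn⟩ := ih
    refine ⟨n, ?_⟩
    rw [mul_smul_comm]
    exact C.smul_mem hn r

end

theorem t_GLAE : S_GLA1 → S_GLA2 → S_R2M → S_GLAE := by
  intro g1 g2 r2 k O K K₂ G Ω _ _ _ _ _ _ _ _ _ _ _ _ _ ε hε ρ m z s hs N _ 𝔔 p l τ hp π hπ d Φ hΦ
  have hR := r2 k K K₂ ε hε (GRG O ρ z s 𝔔 p l τ d Φ) (RG_gr ρ 𝔔 p l τ) π hπ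
  refine ⟨fun Ψ hΨ x hx => ?_, fun s' hs' N' _ 𝔔' p' l' τ' π' hπ' h𝔔 hn₀ => ?_⟩
  · have hR' := r2 k K K₂ ε hε (GRG O ρ z s 𝔔 p l τ d Ψ) (RG_gr ρ 𝔔 p l τ) π hπ
    obtain ⟨e1, e2⟩ := g1 k O K G Ω ρ m z s N 𝔔 p l τ hp d Φ Ψ hΦ hΨ x hx
    refine glue hR.2 hR'.1 hR'.2 e1 fun d' b a ha => ?_
    obtain ⟨n, hn⟩ := e2 _ ha
    refine ⟨n, ?_⟩
    rw [hm_pow, hm_mul, mul_zero, zero_add] at hn
    rw [mul_assoc]
    exact hn
  · have hR' := r2 k K K₂ ε hε (GRG O ρ z s' 𝔔' p' l' τ' d Φ) (RG_gr ρ 𝔔' p' l' τ') π' hπ'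
    obtain ⟨e1, e2⟩ := g2 k O K G Ω ρ m z s s' hs hs' N 𝔔 p l τ N' 𝔔' p' l' τ' d Φ hΦ hp h𝔔
    refine glue hR.2 hR'.1 hR'.2 e1 fun d' b a ha => ?_
    obtain ⟨n, hn⟩ := e2 _ ha
    obtain ⟨n₀, h1, h2⟩ := hn₀
    rw [hm_pow, hm_mul, mul_zero, zero_add] at hn
    set ν : K := algebraMap k K s' / algebraMap k K s with hν
    have hinv : (algebraMap k K s)⁻¹ ∈ OL O (K := K) s := by
      refine ⟨1, 1, ?_⟩
      rw [pow_one, mul_inv_cancel₀ hs, map_one]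
    have hνm : ∀ y : K, algebraMap k K s' ^ n₀ * y ∈ OL O (K := K) s →
        ν ^ n₀ * y ∈ OL O (K := K) s := by
      intro y hy
      have e : ν ^ n₀ * y = (algebraMap k K s)⁻¹ ^ n₀ * (algebraMap k K s' ^ n₀ * y) := by
        rw [hν, div_pow, inv_pow]
        field_simp
      rw [e]
      exact Subalgebra.mul_mem _ (Subalgebra.pow_mem _ hinv _) hy
    -- the power of the quotient of the uniformizers
    have hq : ν ^ (n₀ * b.natAbs) * (π' / π) ^ b ∈ OL O (K := K) s := by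
      rcases Int.natAbs_eq b with hb | hb
      · have e : ν ^ (n₀ * b.natAbs) * (π' / π) ^ b = (ν ^ n₀ * (π' / π)) ^ b.natAbs := by
          conv_lhs => rw [hb]
          rw [mul_pow, zpow_natCast, pow_mul, Int.natAbs_natCast]
        rw [e]
        exact Subalgebra.pow_mem _ (hνm _ h1) _
      · have e : ν ^ (n₀ * b.natAbs) * (π' / π) ^ b = (ν ^ n₀ * (π / π')) ^ b.natAbs := by
          conv_lhs => rw [hb]
          rw [mul_pow, zpow_neg, zpow_natCast, pow_mul, Int.natAbs_neg, Int.natAbs_natCast,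
            ← inv_pow, inv_div]
        rw [e]
        exact Subalgebra.pow_mem _ (hνm _ h2) _
    have hqC : hm 0 (ν ^ (n₀ * b.natAbs) * (π' / π) ^ b) ∈ GRG O ρ z s 𝔔 p l τ d Φ := by
      refine RG_c ρ 𝔔 p l τ hp ?_
      exact Subalgebra.algebraMap_mem (CG (OL O (K := K) s) z d Φ)
        (⟨_, hq⟩ : OL O (K := K) s)
    refine ⟨n₀ * b.natAbs + n, ?_⟩
    have h3 := Subalgebra.mul_mem _ hqC hn
    rw [hm_mul, zero_add] at h3
    have e : ν ^ (n₀ * b.natAbs) * (π' / π) ^ b * (ν ^ n * (a * π' ^ (-b))) =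
        ν ^ (n₀ * b.natAbs + n) * a * π ^ (-b) := by
      have e1 : (π' / π) ^ b * π' ^ (-b) = π ^ (-b) := by
        rw [div_zpow, zpow_neg, zpow_neg]
        have := zpow_ne_zero b hπ'
        have := zpow_ne_zero b hπ
        field_simp
      rw [← e1, pow_add]
      ring
    rwa [e] at h3

end Pool.Agent.Y779.H
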